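import Pool.Agent.H8.MC.Targets

/-!
# (XS) every spectrum is given by a spectrum over each class with models of grids of bounded density
-/

set_option autoImplicit false

namespace Pool.Agent.H94.MC

open Pool.Agent.H8.MC Pool.Agent.H69.VR Pool.Agent.H8.VR Pool.Agent.H69.Sp
open Pool.Agent.H8.PL (GridF Z_SQ)

/-- a formula with the only binary symbol `R 0` does not depend on the other binary relations -/
private theorem binZero_sat {A : Type} (P : ℕ → A → Prop) (R R' : ℕ → A → A → Prop)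
    (h : R 0 = R' 0) : ∀ (Ψ : MS), BinZero Ψ → ∀ (e : ℕ → A) (V : ℕ → Set A),
      Ψ.Sat P R e V ↔ Ψ.Sat P R' e V
  | .un _ _, _, _, _ => Iff.rfl
  | .bi i x y, hb, e, _ => by
    have hi : i = 0 := hb
    subst hi
    change R 0 (e x) (e y) ↔ R' 0 (e x) (e y)
    rw [h]
  | .eq _ _, _, _, _ => Iff.rfl
  | .mem _ _, _, _, _ => Iff.rfl
  | .mod _ _ _, _, _, _ => Iff.rfl
  | .neg φ, hb, e, V => not_congr (binZero_sat P R R' h φ hb e V)
  | .and φ ψ, hb, e, V =>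
    and_congr (binZero_sat P R R' h φ hb.1 e V) (binZero_sat P R R' h ψ hb.2 e V)
  | .ex x φ, hb, e, V => exists_congr fun a => binZero_sat P R R' h φ hb (Function.update e x a) V
  | .exS X φ, hb, e, V => exists_congr fun S => binZero_sat P R R' h φ hb e (Function.update V X S)

private theorem spectrum_pos {S : Set ℕ} (hS : IsSpectrum S) {m : ℕ} (hm : m ∈ S) : 0 < m := by
  obtain ⟨L, _, _, φ, rfl⟩ := hS
  exact hm.1

/-- (XS) -/
theorem pf_XS (hSQ : Z_SQ) (hGRD : T_GRD) (hCNT : T_CNT) (hWMO : T_WMO) (hWTI : T_WTI) : T_XS := by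
  intro S hS
  obtain ⟨r, Q, U, Hh, Vv, hr, hQ, hsq⟩ := hSQ S hS
  obtain ⟨Ψ, hΨ, hΨ2⟩ := hGRD Q U Hh Vv
  refine ⟨Ψ, r, hΨ, hr, fun L hL => ?_⟩
  obtain ⟨φ, hφ⟩ := hCNT L
  refine ⟨φ, fun C hC n => ⟨?_, ?_⟩⟩
  · rintro ⟨hn, P, R, G, hCG, hR, hsat, hφs⟩
    obtain ⟨co, lb, ti, hrule⟩ := (hΨ2 n G R (P 0) hn hR).1 ⟨P, fun a => Iff.rfl, hsat⟩
    have hcard : n = L * Nat.card {x // P 0 x} := by
      refine (hφ n P R hn).1 ⟨R 1, fun v => ?_⟩
      rw [Function.update_eq_self]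
      exact hφs v
    obtain ⟨W, H, hW, hH, hWH, ht⟩ := hWMO Q U Hh Vv (Fin n) G co (P 0) lb ti hrule
    obtain ⟨m, hm, rfl, rfl⟩ := (hsq W H hW hH).1 ht
    refine ⟨m, hm, ?_⟩
    rw [hcard, hWH, two_mul, pow_add]
  · rintro ⟨m, hm, rfl⟩
    have hm0 : 0 < m := spectrum_pos hS hm
    have hK : 0 < m ^ r := pow_pos hm0 r
    have e : m ^ (2 * r) = (m ^ r) ^ 2 := by rw [← pow_mul, mul_comm]
    rw [e]
    obtain ⟨G, π, hCG, hπ⟩ := hC (m ^ r) hK
    have ht : ∃ t, GridF U Hh Vv (m ^ r) (m ^ r) t := (hsq _ _ hK hK).2 ⟨m, hm, rfl, rfl⟩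
    obtain ⟨co, rp, lb, ti, hrule, hcard⟩ := hWTI Q U Hh Vv (m ^ r) _ G π hK hπ ht
    have hn : 0 < L * (m ^ r) ^ 2 := Nat.mul_pos hL (pow_pos hK 2)
    obtain ⟨P, hP, hsat⟩ := (hΨ2 _ G (fun _ => G.Adj) rp hn fun a b => Iff.rfl).2
      ⟨co, lb, ti, hrule⟩
    have hcard' : L * (m ^ r) ^ 2 = L * Nat.card {x // P 0 x} := by
      have h1 : Nat.card {x // P 0 x} = (m ^ r) ^ 2 :=
        (Nat.card_congr (Equiv.subtypeEquivRight fun a => hP a)).trans hcard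
      rw [h1]
    obtain ⟨R', hR'⟩ := (hφ _ P (fun _ => G.Adj) hn).2 hcard'
    refine ⟨hn, P, Function.update (fun _ => G.Adj) 1 R', G, hCG, fun a b => ?_, fun e V => ?_, hR'⟩
    · rw [Function.update_of_ne (by norm_num)]
    · refine (binZero_sat P _ _ ?_ Ψ hΨ e V).1 (hsat e V)
      rw [Function.update_of_ne (by norm_num)]

end Pool.Agent.H94.MC
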